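import Pool.Agent.P.MP_e7d440_ag.Defs

/-! Definitions used in the statement on pseudo-rationality of local models of tame groups. -/

namespace Pool.Agent.P.MP_e7d440_ag.V

open TensorProduct LieAlgebra LieAlgebra.IsKilling

noncomputable section

/-- The data: a basis `bas` of the Lie algebra `L` (root vectors `bas (inl α)`, fundamental
coweights `bas (inr i)`), the opposite root `neg α`, the set `pos` of positive roots, an
automorphism `σ` of order dividing `ℓ`, a root of unity `ζ`, and for every leg `j` a root `s j`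
of order `ℓ` of a conjugate of the uniformizer and a coweight `μ j`. -/
structure Dat (L Φ Δ O J : Type) [LieRing L] [LieAlgebra ℚ L] where
  bas : Module.Basis (Φ ⊕ Δ) ℚ L
  neg : Φ → Φ
  pos : Set Φ
  σ : L ≃ₗ⁅ℚ⁆ L
  ℓ : ℕ
  ζ : O
  s : J → O
  μ : J → L

variable {L Φ Δ O J K ι : Type} [LieRing L] [LieAlgebra ℚ L]

/-- The eigenvalue of `x` on the basis vector number `i`; for `x` in the Cartan subalgebra it is
`α x` if `i = inl α` and `0` if `i = inr _`. -/
def Dat.val (D : Dat L Φ Δ O J) (x : L) (i : Φ ⊕ Δ) : ℚ := D.bas.repr ⁅x, D.bas i⁆ i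

/-- The data describe a tamely ramified group with a minuscule coweight: `L` is split semisimple
with splitting Cartan subalgebra `H`, the roots are indexed by `rt`, the simple roots of the base
`b` by `sm`, the root vectors form a Chevalley system, `σ` preserves `H`, the positive roots and
the Chevalley system up to signs, `ℓ` is invertible in `O`, the legs are distinct points of the
open unit disc and the `μ j` are dominant and minuscule. -/
structure Tame [CommRing O] [FiniteDimensional ℚ L] [IsKilling ℚ L] (D : Dat L Φ Δ O J)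
    (H : LieSubalgebra ℚ L) [H.IsCartanSubalgebra] [LieModule.IsTriangularizable ℚ H L]
    (b : (rootSystem H).Base) (rt : Φ ≃ H.root) (sm : Δ ≃ b.support) (ς : Equiv.Perm Φ) :
    Prop where
  e_mem : ∀ α, D.bas (.inl α) ∈ rootSpace H (rt α).1
  neg_eq : ∀ α, (rt (D.neg α)).1 = -(rt α).1
  e_lie : ∀ α, ⁅D.bas (.inl α), D.bas (.inl (D.neg α))⁆ = (coroot (rt α).1 : H)
  e_int : ∀ α (k : ℕ) i j, ∃ n : ℤ,
    D.bas.repr ((ad ℚ L (D.bas (.inl α)) ^ k) (D.bas i)) j = k.factorial * n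
  cw_mem : ∀ i, D.bas (.inr i) ∈ H
  cw_self : ∀ i, D.val (D.bas (.inr i)) (.inl (rt.symm (sm i))) = 1
  cw_ne : ∀ i j, i ≠ j → D.val (D.bas (.inr i)) (.inl (rt.symm (sm j))) = 0
  pos_iff : ∀ α, α ∈ D.pos ↔ b.IsPos (rt α)
  σ_e : ∀ α, D.σ (D.bas (.inl α)) = D.bas (.inl (ς α)) ∨
    D.σ (D.bas (.inl α)) = -D.bas (.inl (ς α))
  σ_h : ∀ h ∈ H, D.σ h ∈ H
  ς_pos : ∀ α, ς α ∈ D.pos ↔ α ∈ D.pos
  σ_pow : ∀ x, D.σ^[D.ℓ] x = x
  ζ_prim : IsPrimitiveRoot D.ζ D.ℓ
  ℓ_unit : IsUnit (D.ℓ : O)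
  s_ne : ∀ j, D.s j ≠ 0
  s_nonunit : ∀ j, ¬ IsUnit (D.s j)
  s_inj : Function.Injective fun j => D.s j ^ D.ℓ
  μ_mem : ∀ j, D.μ j ∈ H
  μ_min : ∀ j, ∀ α ∈ D.pos, D.val (D.μ j) (.inl α) = 0 ∨ D.val (D.μ j) (.inl α) = 1

namespace Dat

variable [CommRing O] [Field K] [CharZero K] [Algebra O K] [Fintype Φ] [Fintype J]
  (D : Dat L Φ Δ O J)

/-- The index set of the coordinates on the big cell of the flag variety of `μ`. -/
def Idx : Set (J × Φ) := {p | D.val (D.μ p.1) (.inl p.2) = 1}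

open scoped Classical in
/-- The point of the flag variety of `μ j` with coordinates `X`, as the nilradical of the
parabolic subalgebra: the image of the span of the root vectors `β` with `β (μ j) = 1` under the
exponential of the element of the opposite nilradical with coordinates `X`. -/
def gen (X : J × Φ → K) (j : J) : Submodule K (K ⊗[ℚ] L) :=
  (Submodule.span K {v | ∃ β, (j, β) ∈ D.Idx ∧ v = 1 ⊗ₜ D.bas (.inl β)}).map
    (IsNilpotent.exp (ad K (K ⊗[ℚ] L)
      (∑ β with (j, β) ∈ D.Idx, X (j, β) ⊗ₜ D.bas (.inl (D.neg β)))))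

/-- The coordinate of the loop `f = ∑ f m s ^ m` at the basis vector number `a.2` times
`s ^ a.1`. -/
def co (a : ℤ × (Φ ⊕ Δ)) (f : ℤ →₀ K ⊗[ℚ] L) : K :=
  (Algebra.TensorProduct.basis K D.bas).repr (f a.1) a.2

/-- The modification of the Moy-Prasad lattice `Λ(x, r)` of the twisted loop algebra along the
legs by the point `X`, modulo `φ ^ 2 Λ(x, r)`, `φ = ∏ (s ^ ℓ - s j ^ ℓ)`: the equivariant
loops `f` with weights in `[r, r + 2 deg φ)` whose value at `s j` is in the nilradical `gen X j`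
and whose derivative at `s j` is in the parabolic subalgebra, its orthogonal. -/
def lat (X : J × Φ → K) (x : L) (r : ℚ) : Set (ℤ →₀ K ⊗[ℚ] L) :=
  {f | (∀ m, D.σ.toLinearEquiv.toLinearMap.baseChange K (f m) =
        algebraMap O K D.ζ ^ (-m) • f m) ∧
    (∀ a, D.co a f ≠ 0 → r ≤ D.val x a.2 + a.1 ∧
      D.val x a.2 + a.1 < r + 2 * (D.ℓ * Fintype.card J : ℕ)) ∧
    ∀ j, (f.sum fun m v => algebraMap O K (D.s j) ^ m • v) ∈ D.gen X j ∧
      ∀ u ∈ D.gen X j, LinearMap.BilinForm.baseChange K (killingForm ℚ L)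
        (f.sum fun m v => ((m : K) * algebraMap O K (D.s j) ^ m) • v) u = 0}

/-- The point `X` lies in the standard affine chart of the Grassmannian of
`Λ(x, r) / φ ^ 2 Λ(x, r)` given by the set `C` of coordinates. -/
def IsChart (X : J × Φ → K) (x : L) (r : ℚ) (C : Finset (ℤ × (Φ ⊕ Δ))) : Prop :=
  ∀ v : ℤ × (Φ ⊕ Δ) → K, ∃! f, f ∈ D.lat X x r ∧ ∀ a ∈ C, D.co a f = v a

/-- The coordinate ring of the flat closure of the flag variety, with generic point `X`, in the
product of the affine charts `C i` of the Grassmannians of the lattices `Λ(x i, r i)`. -/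
def chart (X : J × Φ → K) (x : ι → L) (r : ι → ℚ) (C : ι → Finset (ℤ × (Φ ⊕ Δ))) :
    Subalgebra O K :=
  Algebra.adjoin O {t | ∃ i, ∃ f ∈ D.lat X (x i) (r i), ∃ b ∈ C i, D.co b f = 1 ∧
    (∀ a ∈ C i, a ≠ b → D.co a f = 0) ∧ ∃ c, t = D.co c f}

/-- The normalization of `chart`. -/
def nchart (X : J × Φ → K) (x : ι → L) (r : ι → ℚ) (C : ι → Finset (ℤ × (Φ ⊕ Δ))) :
    Subalgebra O K :=
  (integralClosure (D.chart X x r C) K).restrictScalars O

/-- `x` is a point of the closed base alcove of the twisted loop group: it is fixed by `σ` and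
every positive affine root is nonnegative at `x`. -/
def InAlc (K : Type) [Field K] [CharZero K] [Algebra O K] (x : L) : Prop :=
  D.σ x = x ∧ ∀ (α : Φ) (m : ℤ), 0 < m ∨ (m = 0 ∧ α ∈ D.pos) →
    ∑ i ∈ Finset.range D.ℓ,
      (algebraMap O K D.ζ ^ ((i : ℤ) * m)) ⊗ₜ[ℚ] D.σ^[i] (D.bas (.inl α)) ≠ 0 →
      0 ≤ D.val x (.inl α) + m

end Dat

/-- `γ` lies in the localization of `A` at `𝔭`. -/
def Loc [CommRing O] [Field K] [Algebra O K] (A : Subalgebra O K) (𝔭 : Ideal A) (γ : K) : Prop :=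
  ∃ a b : A, b ∉ 𝔭 ∧ γ * b = a

end

end Pool.Agent.P.MP_e7d440_ag.V
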