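import Pool.Agent.P.MP_e7d440_ag.U.All
import Pool.Agent.P.MP_e7d440_ag.V.Defs

/-! From the data of the statement to Chevalley data. -/

namespace Pool.Agent.P.MP_e7d440_ag.V

open TensorProduct LieAlgebra LieAlgebra.IsKilling U

variable {L Φ Δ O J K ι : Type} [LieRing L] [LieAlgebra ℚ L] [CommRing O]

/-- `c` is the Chevalley datum attached to `D` -/
structure Br (D : Dat L Φ Δ O J) (H : LieSubalgebra ℚ L) (c : CD L Φ Δ) : Prop where
  bas : c.bas = D.bas
  form : c.κ = killingForm ℚ L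
  σ : c.σ = D.σ
  ℓ : c.ℓ = D.ℓ
  neg : c.neg = D.neg
  al : ∀ α, ∀ h ∈ H, c.al α h = D.val h (.inl α)
  inr : ∀ i, ∀ h ∈ H, D.val h (.inr i) = 0
  isH : ∀ h ∈ H, c.IsH h
  pos : ∀ α, 0 < c.al α c.ρ ↔ α ∈ D.pos

variable [FiniteDimensional ℚ L] [IsKilling ℚ L] {D : Dat L Φ Δ O J}
  {H : LieSubalgebra ℚ L} [H.IsCartanSubalgebra] [LieModule.IsTriangularizable ℚ H L]
  {b : (rootSystem H).Base} {rt : Φ ≃ H.root} {sm : Δ ≃ b.support} {ς : Equiv.Perm Φ}

lemma Tame.val (hD : Tame D H b rt sm ς) (α : Φ) (h : H) :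
    D.val h (.inl α) = (rt α).1 h := by
  have := lie_eq_smul_of_mem_rootSpace (hD.e_mem α) h
  rw [LieSubalgebra.coe_bracket_of_module] at this
  simp [Dat.val, this]

theorem Tame.br [Nontrivial O] (hD : Tame D H b rt sm ς) : ∃ c : CD L Φ Δ, Br D H c := by
  classical
  have hn : ∀ α, rt (D.neg α) = ngt (rt α) := fun α => Subtype.ext (hD.neg_eq α)
  have hn' : ∀ α, rt.symm (ngt α) = D.neg (rt.symm α) := fun α => by
    rw [Equiv.symm_apply_eq, hn, Equiv.apply_symm_apply]
  have h1 : ∀ α : H.root, D.bas (.inl (rt.symm α)) ∈ rootSpace H α.1 := fun α => by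
    simpa using hD.e_mem (rt.symm α)
  have h2 : ∀ α : H.root, ⁅D.bas (.inl (rt.symm α)), D.bas (.inl (rt.symm (ngt α)))⁆ =
      (coroot α.1 : H) := fun α => by simpa [hn'] using hD.e_lie (rt.symm α)
  obtain ⟨B, b1, b2, b3, b4, b5, b6⟩ := bas b (fun α => D.bas (.inl (rt.symm α))) h1 h2
  have b7 : ∀ (i : b.support) (h : H), B.repr h (.inr i) = i.1.1 h := fun i h => by
    rw [b1, coord, LinearMap.smul_apply, b6, smul_eq_mul, inv_mul_cancel_left₀ (b5 _)]
  have hB : ∀ i, B (Sum.map rt sm i) = D.bas i := by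
    rintro (α | i)
    · simp [b2]
    · refine B.ext_elem ?_
      rintro (α | j)
      · rw [b1, b1, Sum.map_inr, (b4 _).1 (b3 _), (b4 _).1 (hD.cw_mem i)]
      · obtain ⟨j, rfl⟩ := sm.surjective j
        have := hD.val (rt.symm (sm j)) ⟨_, hD.cw_mem i⟩
        rw [Equiv.apply_symm_apply] at this
        rw [b7 _ ⟨_, hD.cw_mem i⟩, ← this]
        by_cases e : i = j
        · subst e; simp [hD.cw_self]
        · simp [hD.cw_ne i j e, Finsupp.single_apply, e]
  have hB' : B = D.bas.reindex (rt.sumCongr sm) := Module.Basis.eq_of_apply_eq fun i => by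
    rw [Module.Basis.reindex_apply, ← hB]
    exact congrArg B ((rt.sumCongr sm).apply_symm_apply i).symm
  have hR : ∀ x i, B.repr x (Sum.map rt sm i) = D.bas.repr x i := fun x i => by
    rw [hB', Module.Basis.repr_reindex_apply]
    exact congrArg _ ((rt.sumCongr sm).symm_apply_apply i)
  let D₀ : Datum H O J :=
    { b := b
      e := fun α => D.bas (.inl (rt.symm α))
      e_mem := h1
      e_lie := h2
      e_int := fun α k x hx i => by
        obtain ⟨i, rfl⟩ := (rt.sumCongr sm).surjective i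
        choose n hn using fun j => hx (Sum.map rt sm j)
        choose m hm using fun j => hD.e_int (rt.symm α) k j i
        have := Fintype.ofEquiv _ (rt.sumCongr sm).symm
        refine ⟨∑ j, n j * m j, ?_⟩
        rw [← b1, Equiv.sumCongr_apply, hR, ← D.bas.sum_repr x]
        simp only [map_sum, map_smul, Finsupp.coe_finset_sum, Finset.sum_apply, Finsupp.coe_smul,
          Pi.smul_apply, hm, ← hR x, b1, hn, smul_eq_mul, Finset.mul_sum, Int.cast_sum,
          Int.cast_mul]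
        exact Finset.sum_congr rfl fun j _ => by ring
      σ := D.σ
      ς := rt.symm.trans (ς.trans rt)
      σ_e := fun α => by simpa using hD.σ_e (rt.symm α)
      σ_h := hD.σ_h
      ς_pos := fun α => by simpa [hD.pos_iff] using hD.ς_pos (rt.symm α)
      ℓ := D.ℓ
      σ_pow := hD.σ_pow
      ζ := D.ζ
      ζ_prim := hD.ζ_prim
      ℓ_unit := hD.ℓ_unit
      s := D.s
      s_ne := hD.s_ne
      s_nonunit := hD.s_nonunit
      s_inj := hD.s_inj
      μ := fun j => ⟨D.μ j, hD.μ_mem j⟩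
      μ_min := fun j α hα => by
        obtain ⟨α, rfl⟩ := rt.surjective α
        rw [← hD.val]
        exact hD.μ_min j α ((hD.pos_iff α).2 hα) }
  obtain ⟨c, hc⟩ := brg D₀
  have e0 : c.bas = B := Module.Basis.eq_ofRepr_eq_repr fun x i => (hc.repr i x).trans (b1 i x).symm
  have e1 : ∀ α, D.bas (.inl α) = c.bas (.inl (rt α)) := fun α => by rw [e0, ← hB]; rfl
  have e2 : ∀ i, D.bas (.inr i) = c.bas (.inr (sm i)) := fun i => by rw [e0, ← hB]; rfl
  have r1 : ∀ x α, D.bas.repr x (.inl α) = c.bas.repr x (.inl (rt α)) := fun x α => by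
    rw [e0, ← hR]; rfl
  have r2 : ∀ x i, D.bas.repr x (.inr i) = c.bas.repr x (.inr (sm i)) := fun x i => by
    rw [e0, ← hR]; rfl
  have hn2 : ∀ α, rt (D.neg α) = c.neg (rt α) := fun α => by rw [hn, hc.neg]
  have hσ : c.σ = D.σ := hc.σ
  have hH : ∀ x, (∀ β, D.bas.repr x (.inl β) = 0) → ∀ β, c.bas.repr x (.inl β) = 0 :=
    fun x hx β => by obtain ⟨β, rfl⟩ := rt.surjective β; rw [← r1, hx]
  refine ⟨
    { bas := D.bas
      al := fun α => c.al (rt α)
      sim := fun i => rt.symm (c.sim (sm i))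
      neg := D.neg
      κ := c.κ
      ρ := c.ρ
      σ := D.σ
      ς := ς
      ℓ := c.ℓ
      al_e := fun α β => by rw [e1, c.al_e]
      al_sim := fun i x => by rw [Equiv.apply_symm_apply, c.al_sim, r2]
      al_int := fun α i => by rw [e2]; exact c.al_int _ _
      al_inj := c.al_inj.comp rt.injective
      al_neg := fun α => by rw [hn2, c.al_neg]
      lie_cw_e := fun i α => by rw [e1, e2, c.lie_cw_e]
      lie_cw_cw := fun i j => by rw [e2, e2, c.lie_cw_cw]
      cor_two := fun α => by rw [e1, e1, hn2, c.cor_two]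
      int := hD.e_int
      refl := fun α β => by
        obtain ⟨γ, hγ⟩ := c.refl (rt α) (rt β)
        exact ⟨rt.symm γ, by rw [Equiv.apply_symm_apply, hγ, e1, e1, hn2]⟩
      str := fun α β h hne => by
        rw [e1, e1, hn2] at h
        obtain ⟨γ, hγ⟩ := c.str (rt α) (rt β) h (rt.injective.ne hne)
        exact ⟨rt.symm γ, by rw [Equiv.apply_symm_apply, hγ]⟩
      κ_symm := c.κ_symm
      κ_lie := c.κ_lie
      κ_pos := fun h h1 => c.κ_pos h (hH h h1)
      κ_σ := hσ ▸ c.κ_σ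
      σ_e := hD.σ_e
      σ_h := fun i β => by rw [r1]; exact hc.isH ⟨_, hD.σ_h _ (hD.cw_mem i)⟩ _
      σ_pow := hσ ▸ c.σ_pow
      ℓ_pos := c.ℓ_pos
      ρ_h := fun β => by rw [r1, c.ρ_h]
      ρ_σ := hσ ▸ c.ρ_σ
      ρ_ne := fun α => c.ρ_ne _
      ρ_lt := fun α => c.ρ_lt _ }, rfl, hc.form, rfl, hc.ℓ, rfl,
    fun α h hh => (hc.al (rt α) ⟨h, hh⟩).trans (hD.val α ⟨h, hh⟩).symm, fun i h hh => ?_,
    fun h hh β => (r1 h β).trans (hc.isH ⟨h, hh⟩ _), fun α => (hc.pos _).trans (hD.pos_iff α).symm⟩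
  have := congrArg Subtype.val (trivial_lie_zero H H ⟨h, hh⟩ ⟨_, hD.cw_mem i⟩)
  simp only [LieSubalgebra.coe_bracket] at this
  simp [Dat.val, this]

end Pool.Agent.P.MP_e7d440_ag.V
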