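import Pool.Agent.P.MP_e7d440_ag.V.Bridge

/-! Translation of the lattices of the statement and the final assembly. -/

namespace Pool.Agent.P.MP_e7d440_ag.V

open TensorProduct LieAlgebra LieAlgebra.IsKilling U U.LatA

set_option linter.unusedSectionVars false

variable {L Φ Δ O J K ι : Type} [LieRing L] [LieAlgebra ℚ L] [CommRing O] [Field K] [CharZero K]
  [Algebra O K] [Fintype Φ] [Fintype Δ] [Fintype J] {D : Dat L Φ Δ O J} {H : LieSubalgebra ℚ L}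
  {c : CD L Φ Δ}

open scoped Classical

namespace Br

lemma wt (hb : Br D H c) {x : L} (hx : x ∈ H) (a : ℤ × (Φ ⊕ Δ)) :
    D.val x a.2 + a.1 = c.wt x a := by
  obtain ⟨m, α | i⟩ := a
  · rw [c.wt_inl, CD.val, hb.al α x hx]
  · rw [c.wt_inr, hb.inr i x hx, zero_add]

lemma bs (hb : Br D H c) (i : Φ ⊕ Δ) : c.bs K i = 1 ⊗ₜ D.bas i := by rw [c.bs_apply, hb.bas]

lemma cl (hb : Br D H c) {x : L} (h1 : x ∈ H) (hx : D.InAlc K x) :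
    c.Cl (algebraMap O K D.ζ) c.ρ x := by
  have h := t1 c K
  refine ⟨⟨hb.isH x h1, by rw [hb.σ]; exact hx.1⟩, fun a hv hp => ?_⟩
  rw [CD.val, hb.al _ _ h1]
  refine hx.2 a.1 a.2 (by rw [← hb.pos]; exact (h.cd.ρ_pos a.1 a.2).1 hp) fun e => hv ?_
  rw [CD.cc, ← e, hb.ℓ]
  refine Finset.sum_congr rfl fun i _ => ?_
  rw [hb.bs, h.gk.sg_pow_c0, smul_tmul', smul_eq_mul, mul_one, hb.σ]

lemma gen (hb : Br D H c) (hμ : ∀ j, D.μ j ∈ H) (X : J × Φ → K) (j : J) :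
    D.gen X j = c.cell D.μ (fun p => X p.1) j := by
  have h1 : c.nX D.μ (fun p => X p.1) j =
      ∑ β with (j, β) ∈ D.Idx, X (j, β) ⊗ₜ D.bas (.inl (D.neg β)) := by
    refine Finset.sum_bij' (fun p _ => p.1.2) (fun β hβ => ⟨(j, β), by
      rw [hb.al _ _ (hμ j)]; exact (Finset.mem_filter.1 hβ).2⟩) ?_ (by simp) ?_ (by simp) ?_
    · rintro ⟨⟨j', β⟩, hp⟩ h
      obtain rfl : j' = j := (Finset.mem_filter.1 h).2
      exact Finset.mem_filter.2 ⟨Finset.mem_univ _, (hb.al _ _ (hμ _)).symm.trans hp⟩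
    · rintro ⟨⟨j', β⟩, hp⟩ h
      obtain rfl : j' = j := (Finset.mem_filter.1 h).2
      rfl
    · rintro ⟨⟨j', β⟩, hp⟩ h
      obtain rfl : j' = j := (Finset.mem_filter.1 h).2
      rw [hb.bs, smul_tmul', smul_eq_mul, mul_one, hb.neg]
  rw [Dat.gen, CD.cell, (t1 c K).fd.span, h1]
  simp only [hb.al _ _ (hμ j), hb.bs]
  rfl

lemma co (hb : Br D H c) (a : ℤ × (Φ ⊕ Δ)) (g : ℤ →₀ G L K) : D.co a g = c.co a (toL g) := by
  rw [Dat.co, ← cf_toL (t1 c K) g, ← c.co_cf, c.crd_eq, CD.bs, hb.bas]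

lemma lat (hb : Br D H c) (hμ : ∀ j, D.μ j ∈ H) (X : J × Φ → K) {x : L} (hx : x ∈ H) (r : ℚ)
    (g : ℤ →₀ G L K) : g ∈ D.lat X x r ↔ toL g ∈ c.Win (algebraMap O K D.ζ)
      (fun j => algebraMap O K (D.s j)) (c.cell D.μ fun p => X p.1) x r := by
  have h := t1 c K
  rw [CD.Win, Submodule.mem_inf, c.mem_NN, c.mem_Eqv, c.mem_Sup]
  simp only [cf_toL h, ev_toL h, ev_dd_toL h, ← hb.co, ← hb.wt hx, ← hb.gen hμ, CD.sg, CD.kR,
    hb.σ, hb.form, CD.dg, hb.ℓ, Set.mem_Ico]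
  exact ⟨fun ⟨a1, a2, a3⟩ => ⟨⟨a1, a3⟩, a2⟩, fun ⟨⟨a1, a3⟩, a2⟩ => ⟨a1, a2, a3⟩⟩

lemma ch (hb : Br D H c) (hμ : ∀ j, D.μ j ∈ H) (X : J × Φ → K) {x : L} (hx : x ∈ H) (r : ℚ)
    (C : Finset (ℤ × (Φ ⊕ Δ))) (h : D.IsChart X x r C) : c.IsCh (algebraMap O K D.ζ)
      (fun j => algebraMap O K (D.s j)) (c.cell D.μ fun p => X p.1) x r C := fun v =>
  (transfer toL (fun _ _ => toL_inj (t1 c K)) (toL_surj (t1 c K)) _ _ fun g => by
    simp only [hb.lat hμ X hx, hb.co]).1 (h v)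

lemma gens (hb : Br D H c) (hμ : ∀ j, D.μ j ∈ H) (X : J × Φ → K) {x : L} (hx : x ∈ H) (r : ℚ)
    (C : Finset (ℤ × (Φ ⊕ Δ))) (t : K) : (∃ f ∈ D.lat X x r, ∃ b ∈ C, D.co b f = 1 ∧
      (∀ a ∈ C, a ≠ b → D.co a f = 0) ∧ ∃ a, t = D.co a f) ↔ t ∈ c.Gens (algebraMap O K D.ζ)
        (fun j => algebraMap O K (D.s j)) (c.cell D.μ fun p => X p.1) x r C := by
  constructor
  · rintro ⟨g, hg, b, hbC, h1, h2, a, h3⟩
    refine ⟨toL g, (hb.lat hμ X hx r g).1 hg, b, hbC, fun a ha => ?_, a, by rw [h3, hb.co]⟩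
    rw [← hb.co]
    split_ifs with e
    · rw [e, h1]
    · exact h2 a ha e
  · rintro ⟨f, hf, b, hbC, h2, a, h3⟩
    obtain ⟨g, rfl⟩ := toL_surj (t1 c K) f
    exact ⟨g, (hb.lat hμ X hx r g).2 hf, b, hbC, by rw [hb.co, h2 b hbC, if_pos rfl],
      fun a ha e => by rw [hb.co, h2 a ha, if_neg e], a, by rw [h3, hb.co]⟩

lemma co' (hb : Br D H c) (hμ : ∀ j, D.μ j ∈ H)
    (hm : ∀ j, ∀ α ∈ D.pos, D.val (D.μ j) (.inl α) = 0 ∨ D.val (D.μ j) (.inl α) = 1) :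
    c.Co D.μ c.ρ := by
  have sgn : ∀ j α, (0 < c.al α c.ρ ∧ (c.al α (D.μ j) = 0 ∨ c.al α (D.μ j) = 1)) ∨
      (c.al α (D.μ j) = 0 ∨ c.al α (D.μ j) = -1) := fun j α => by
    rcases lt_or_gt_of_ne (c.ρ_ne α) with h1 | h1
    · right
      have h2 : 0 < c.al (c.neg α) c.ρ := by rw [c.al_neg, LinearMap.neg_apply]; linarith
      have h3 := hm j _ ((hb.pos _).1 h2)
      rw [← hb.al _ _ (hμ j), c.al_neg, LinearMap.neg_apply] at h3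
      exact h3.imp (fun e => by linarith) fun e => by linarith
    · left
      exact ⟨h1, by rw [hb.al _ _ (hμ j)]; exact hm j _ ((hb.pos _).1 h1)⟩
  refine ⟨c.fix_ρ, c.ρ_ne, fun j => ⟨hb.isH _ (hμ j), fun α => ?_⟩, fun j α e => ?_⟩
  · rcases sgn j α with ⟨-, e | e⟩ | e | e <;> simp [e]
  · rcases sgn j α with ⟨h1, -⟩ | e' | e'
    · exact h1
    · rw [e'] at e; norm_num at e
    · rw [e'] at e; norm_num at e

end Br

end Pool.Agent.P.MP_e7d440_ag.V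

namespace Pool.Agent.P.MP_e7d440_ag.V

open LieAlgebra LieAlgebra.IsKilling U

theorem final {L Φ Δ O J K ι : Type} [LieRing L] [LieAlgebra ℚ L] [FiniteDimensional ℚ L]
    [IsKilling ℚ L] [CommRing O] [IsDomain O] [IsDiscreteValuationRing O] [Field K] [CharZero K]
    [Algebra O K] [Fintype Φ] [Fintype J] [Finite ι] [Nonempty ι] (D : Dat L Φ Δ O J)
    (H : LieSubalgebra ℚ L) [H.IsCartanSubalgebra] [LieModule.IsTriangularizable ℚ H L]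
    (b : (rootSystem H).Base) (rt : Φ ≃ H.root) (sm : Δ ≃ b.support) (ς : Equiv.Perm Φ)
    (hD : Tame D H b rt sm ς) (X : J × Φ → K)
    (hX : AlgebraicIndependent O fun p : D.Idx => X p)
    (hK : Subfield.closure (Set.range (algebraMap O K) ∪ X '' D.Idx) = ⊤)
    (x : ι → L) (hx : ∀ i, x i ∈ H ∧ D.InAlc K (x i)) (r : ι → ℚ) (A : Subalgebra O K)
    (hA : ∀ 𝔫 : Ideal A, 𝔫.IsMaximal → ∃ C : ι → Finset (ℤ × (Φ ⊕ Δ)),
      (∀ i, D.IsChart X (x i) (r i) (C i)) ∧ ∃ 𝔭 : Ideal (D.nchart X x r C), 𝔭.IsPrime ∧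
        ∀ γ, Loc A 𝔫 γ ↔ Loc (D.nchart X x r C) 𝔭 γ)
    (B : Type) [CommRing B] [IsLocalRing B] [IsNoetherianRing B] [Algebra B A]
    [Module.Finite B A] [Module.Free B A] :
    IsDomain B ∧ IsIntegrallyClosed B ∧ LTInj B := by
  classical
  have := Fintype.ofEquiv _ sm.symm
  have hinj := hX.algebraMap_injective
  have : CharZero O := (algebraMap O K).charZero
  obtain ⟨π, hπ⟩ := IsDiscreteValuationRing.exists_irreducible O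
  obtain ⟨c, hc⟩ := hD.br
  have hO : c.OD D.ζ D.s := ⟨hc.ℓ ▸ hD.ζ_prim, hc.ℓ ▸ hD.ℓ_unit, hD.s_ne, hD.s_nonunit,
    hc.ℓ ▸ hD.s_inj⟩
  have hid : ∀ p : J × Φ, c.al p.2 (D.μ p.1) = 1 ↔ p ∈ D.Idx := fun p => by
    rw [hc.al _ _ (hD.μ_mem _)]; rfl
  have hI : AlgebraicIndependent O fun p : c.Id D.μ => X p.1 :=
    hX.comp (Equiv.subtypeEquivRight hid) (Equiv.injective _)
  have hG : Gen O fun p : c.Id D.μ => X p.1 := (gen.clos _).2 (by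
    rw [← hK]
    congr 2
    ext t
    exact ⟨fun ⟨p, e⟩ => ⟨p.1, (hid _).1 p.2, e⟩, fun ⟨p, hp, e⟩ => ⟨⟨p, (hid _).2 hp⟩, e⟩⟩)
  have key : ∀ 𝔫 : Ideal A, 𝔫.IsMaximal → Good A K 𝔫 := by
    intro 𝔫 h𝔫
    obtain ⟨C, hC1, 𝔭, h𝔭, hl⟩ := hA 𝔫 h𝔫
    obtain ⟨h1, h2, h3, h4⟩ := cy' c π D.ζ D.s D.μ c.ρ (fun p => X p.1) x r C
      (D.chart X x r C) (D.nchart X x r C) hπ hO (hc.co' hD.μ_mem hD.μ_min) hG hI
      (fun i => hc.cl (hx i).1 (hx i).2) (fun i => hc.ch hD.μ_mem X (hx i).1 _ _ (hC1 i)) (by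
        unfold Dat.chart
        congr 1
        ext t
        exact exists_congr fun i => hc.gens hD.μ_mem X (hx i).1 (r i) (C i) t) (fun γ => Iff.rfl)
    obtain ⟨R, i1, i2, i3, i4, a1, a2, a3, a4⟩ := fin2' O (D.nchart X x r C) K π hπ hinj h4 𝔭 h𝔭
    exact ⟨R, i1, i2, i3, i4, a1, fun γ => (a2 γ).trans
      (⟨fun ⟨a, b, hb, e⟩ => let ⟨a', b', hb', e'⟩ := (hl γ).2 ⟨a, b, hb, e⟩; ⟨a', b', hb', e'⟩,
        fun ⟨a, b, hb, e⟩ => let ⟨a', b', hb', e'⟩ := (hl γ).1 ⟨a, b, hb, e⟩;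
          ⟨a', b', hb', e'⟩⟩), a3, a4⟩
  obtain ⟨i1, a1, a2⟩ := desc B A K Subtype.val_injective key
  exact ⟨i1, a1, scheme B (FractionRing B) a2⟩

end Pool.Agent.P.MP_e7d440_ag.V
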